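import Pool.Agent.L0h77.WK.Stm

/-!
# Project WK (helper77), module CPT
-/

set_option autoImplicit false

open Topology

namespace Pool.Agent.L0h6.WK

open Pool.Agent.L0h77.WK

lemma lip_dist_le {M : ℕ → ℝ} {g : ℂ → ℝ} (h : LipBd M g) (R : ℕ) {w w' : ℂ} (hw : ‖w‖ ≤ R)
    (hw' : ‖w'‖ ≤ R) : dist (g w) (g w') ≤ (|M R| + 1) * dist w w' := by
  rw [Real.dist_eq, dist_eq_norm]
  refine (h R w w' hw hw').2.trans ?_
  apply mul_le_mul_of_nonneg_right _ (norm_nonneg _)
  have := le_abs_self (M R)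
  linarith

lemma lip_near {M : ℕ → ℝ} (x₀ : ℂ) {ε : ℝ} (hε : 0 < ε) : ∃ δ > 0, ∀ x, dist x x₀ < δ →
    ∀ g : ℂ → ℝ, LipBd M g → dist (g x₀) (g x) < ε := by
  obtain ⟨R, hR⟩ := exists_nat_ge (‖x₀‖ + 1)
  refine ⟨min 1 (ε / (|M R| + 1)), by positivity, fun x hx g hg => ?_⟩
  have h1 : dist x x₀ < 1 := hx.trans_le (min_le_left _ _)
  have h2 : dist x x₀ < ε / (|M R| + 1) := hx.trans_le (min_le_right _ _)
  have hx₀ : ‖x₀‖ ≤ R := by linarith
  have hx1 : ‖x‖ ≤ R := by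
    have : ‖x‖ ≤ ‖x - x₀‖ + ‖x₀‖ := by
      have := norm_add_le (x - x₀) x₀
      rwa [sub_add_cancel] at this
    rw [dist_eq_norm] at h1
    linarith
  have h3 := lip_dist_le hg R hx₀ hx1
  rw [lt_div_iff₀ (by positivity)] at h2
  rw [dist_comm x₀ x] at h3
  linarith

/-- CPT -/
theorem t_CPT : S_CPT := by
  intro M
  have himg : ContinuousMap.toFun '' {f : C(ℂ, ℝ) | LipBd M f} = {g : ℂ → ℝ | LipBd M g} := by
    ext g
    constructor
    · rintro ⟨f, hf, rfl⟩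
      exact hf
    · intro hg
      have hc : Continuous g := by
        rw [Metric.continuous_iff']
        intro x₀ ε hε
        obtain ⟨δ, hδ, h⟩ := lip_near (M := M) x₀ hε
        filter_upwards [Metric.ball_mem_nhds x₀ hδ] with x hx
        rw [dist_comm]
        exact h x hx g hg
      exact ⟨⟨g, hc⟩, hg, rfl⟩
  have hclosed : IsClosed {g : ℂ → ℝ | LipBd M g} := by
    have e : {g : ℂ → ℝ | LipBd M g} = ⋂ (R : ℕ), ⋂ (w : ℂ), ⋂ (w' : ℂ), ⋂ (_ : ‖w‖ ≤ R), ⋂ (_ : ‖w'‖ ≤ R),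
        {g : ℂ → ℝ | |g w| ≤ M R ∧ |g w - g w'| ≤ M R * ‖w - w'‖} := by
      ext g
      simp only [Set.mem_iInter]
      exact Iff.rfl
    rw [e]
    refine isClosed_iInter fun R => isClosed_iInter fun w => isClosed_iInter fun w' =>
      isClosed_iInter fun _ => isClosed_iInter fun _ => ?_
    have e2 : {g : ℂ → ℝ | |g w| ≤ M R ∧ |g w - g w'| ≤ M R * ‖w - w'‖} =
        {g : ℂ → ℝ | |g w| ≤ M R} ∩ {g : ℂ → ℝ | |g w - g w'| ≤ M R * ‖w - w'‖} := rfl
    rw [e2]
    exact (isClosed_le (continuous_abs.comp (continuous_apply w)) continuous_const).inter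
      (isClosed_le (continuous_abs.comp ((continuous_apply w).sub (continuous_apply w'))) continuous_const)
  apply ArzelaAscoli.isCompact_of_equicontinuous
  · rw [himg]
    choose Rw hRw using fun w : ℂ => exists_nat_ge ‖w‖
    have hK : IsCompact (Set.pi Set.univ fun w : ℂ => Set.Icc (-M (Rw w)) (M (Rw w))) :=
      isCompact_univ_pi fun w => isCompact_Icc
    refine hK.of_isClosed_subset hclosed ?_
    intro g hg w _
    have := (hg (Rw w) w w (hRw w) (hRw w)).1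
    rw [abs_le] at this
    exact this
  · intro x₀
    rw [Metric.equicontinuousAt_iff]
    intro ε hε
    obtain ⟨δ, hδ, h⟩ := lip_near (M := M) x₀ hε
    exact ⟨δ, hδ, fun x hx i => h x hx _ i.2⟩

end Pool.Agent.L0h6.WK
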