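import Pool.Agent.L0h6.WK.Smo

/-! The Parseval identity and the Bessel function. -/

set_option autoImplicit false
open MeasureTheory Filter Topology Set
open scoped Real

noncomputable section

namespace Pool.Agent.L0h6.WK

open Pool.Agent.N661.BR (J0)

theorem cont_F (x : ℂ) : Continuous fun y => FF x y :=
  smooth_FF.continuous.comp (Continuous.prodMk_right x)

/-- the Parseval identity for real functions -/
theorem parseval (f : ℝ → ℝ) (hf : Continuous f) :
    HasSum (fun n : ℤ => (1 / (2 * π) * ∫ α in (0:ℝ)..(2 * π), Real.cos (n * α) * f α) ^ 2 +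
      (1 / (2 * π) * ∫ α in (0:ℝ)..(2 * π), Real.sin (n * α) * f α) ^ 2)
      (1 / (2 * π) * ∫ α in (0:ℝ)..(2 * π), f α ^ 2) := by
  have hab : (0:ℝ) < 2 * π := by positivity
  have hc : Continuous fun α => (f α : ℂ) := Complex.continuous_ofReal.comp hf
  have hL : MemLp (fun α => (f α : ℂ)) 2 (volume.restrict (Ioc 0 (2 * π))) := by
    obtain ⟨C, hC⟩ := (isCompact_Icc (a := (0:ℝ)) (b := 2 * π)).exists_bound_of_continuousOn
      hc.continuousOn
    refine MemLp.of_bound hc.aestronglyMeasurable C ?_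
    refine (ae_restrict_iff' measurableSet_Ioc).2 (Eventually.of_forall fun α hα => ?_)
    exact hC α (Ioc_subset_Icc_self hα)
  have h := hasSum_sq_fourierCoeffOn hab hL
  have e2 : ((2 * π - 0)⁻¹ • ∫ α in (0:ℝ)..(2 * π), ‖(f α : ℂ)‖ ^ 2) =
      1 / (2 * π) * ∫ α in (0:ℝ)..(2 * π), f α ^ 2 := by
    simp only [Complex.norm_real, Real.norm_eq_abs, sq_abs, sub_zero, smul_eq_mul, one_div]
  rw [e2] at h
  refine h.congr_fun fun n => ?_
  rw [fourierCoeffOn_eq_integral]
  have e3 : ∀ α : ℝ, (fourier (-n) (α : AddCircle (2 * π - 0))) • (f α : ℂ) =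
      ((Real.cos (n * α) * f α : ℝ) : ℂ) - ((Real.sin (n * α) * f α : ℝ) : ℂ) * Complex.I := by
    intro α
    rw [fourier_coe_apply]
    have e4 : 2 * (π : ℂ) * Complex.I * ((-n : ℤ) : ℂ) * (α : ℂ) / ((2 * π - 0 : ℝ) : ℂ) =
        ((-(n * α) : ℝ) : ℂ) * Complex.I := by
      have : (π : ℂ) ≠ 0 := by exact_mod_cast Real.pi_ne_zero
      push_cast
      rw [sub_zero]
      field_simp
    rw [e4, Complex.exp_mul_I, ← Complex.ofReal_cos, ← Complex.ofReal_sin, Real.cos_neg,
      Real.sin_neg, smul_eq_mul]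
    push_cast
    ring
  simp only [e3]
  have hi1 : IntervalIntegrable (fun α : ℝ => ((Real.cos (n * α) * f α : ℝ) : ℂ)) volume 0 (2 * π) :=
    (Complex.continuous_ofReal.comp ((by fun_prop : Continuous fun α : ℝ =>
      Real.cos (n * α)).mul hf)).intervalIntegrable _ _
  have hi2 : IntervalIntegrable (fun α : ℝ => ((Real.sin (n * α) * f α : ℝ) : ℂ) * Complex.I)
      volume 0 (2 * π) :=
    ((Complex.continuous_ofReal.comp ((by fun_prop : Continuous fun α : ℝ =>
      Real.sin (n * α)).mul hf)).mul continuous_const).intervalIntegrable _ _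
  rw [intervalIntegral.integral_sub hi1 hi2, intervalIntegral.integral_mul_const,
    intervalIntegral.integral_ofReal, intervalIntegral.integral_ofReal]
  set A := ∫ α in (0:ℝ)..(2 * π), Real.cos (n * α) * f α
  set B := ∫ α in (0:ℝ)..(2 * π), Real.sin (n * α) * f α
  rw [norm_smul, mul_pow (‖_‖), Complex.sq_norm, Complex.normSq_apply]
  simp [abs_of_pos Real.pi_pos]
  ring

theorem FF_mul (x y : ℂ) (α : ℝ) :
    FF x α * FF y α = Real.cos (pp (x - y) α) + Real.sin (pp (x + y) α) := by
  have h1 : pp (x - y) α = pp x α - pp y α := by simp only [pp, Complex.sub_re, Complex.sub_im]; ring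
  have h2 : pp (x + y) α = pp x α + pp y α := by simp only [pp, Complex.add_re, Complex.add_im]; ring
  rw [h1, h2, Real.cos_sub, Real.sin_add, FF, FF]
  ring

theorem pp_arg (z : ℂ) (α : ℝ) : pp z α = ‖z‖ * Real.cos (α - z.arg) := by
  rw [pp, Real.cos_sub]
  have h1 := Complex.norm_mul_cos_arg z
  have h2 := Complex.norm_mul_sin_arg z
  linear_combination -Real.cos α * h1 - Real.sin α * h2

theorem int_cos (z : ℂ) : ∫ α in (0:ℝ)..(2 * π), Real.cos (pp z α) = 2 * π * J0 ‖z‖ := by
  have hp : Function.Periodic (fun α => Real.cos (‖z‖ * Real.cos α)) (2 * π) := fun α => by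
    simp only [Real.cos_add_two_pi]
  have h1 : ∫ α in (0:ℝ)..(2 * π), Real.cos (pp z α) =
      ∫ α in (0:ℝ)..(2 * π), Real.cos (‖z‖ * Real.cos α) := by
    simp only [pp_arg]
    rw [intervalIntegral.integral_comp_sub_right (fun α => Real.cos (‖z‖ * Real.cos α))]
    have := hp.intervalIntegral_add_eq (0 - z.arg) 0
    rw [zero_add] at this
    rw [← this]
    congr 1
    ring
  rw [h1, J0]
  field_simp

theorem int_sin (z : ℂ) : ∫ α in (0:ℝ)..(2 * π), Real.sin (pp z α) = 0 := by
  have hp : Function.Periodic (fun α => Real.sin (pp z α)) (2 * π) := fun α => by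
    simp only [pp, Real.cos_add_two_pi, Real.sin_add_two_pi]
  have h1 : ∫ α in (0:ℝ)..(2 * π), Real.sin (pp z (α + π)) =
      ∫ α in (0:ℝ)..(2 * π), Real.sin (pp z α) := by
    rw [intervalIntegral.integral_comp_add_right (fun α => Real.sin (pp z α))]
    have := hp.intervalIntegral_add_eq π 0
    rw [zero_add (2 * π)] at this
    rw [← this, zero_add, add_comm (2 * π) π]
  have h2 : ∀ α, Real.sin (pp z (α + π)) = -Real.sin (pp z α) := fun α => by
    rw [← Real.sin_neg]
    congr 1
    simp only [pp, Real.cos_add_pi, Real.sin_add_pi]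
    ring
  simp only [h2, intervalIntegral.integral_neg] at h1
  linarith

theorem int_FF (x y : ℂ) :
    1 / (2 * π) * (∫ α in (0:ℝ)..(2 * π), FF x α * FF y α) = J0 ‖x - y‖ := by
  have hc : ∀ z : ℂ, Continuous fun α => pp z α := fun z =>
    smooth_pp.continuous.comp (Continuous.prodMk_right z)
  simp only [FF_mul]
  have h1 : IntervalIntegrable (fun α => Real.cos (pp (x - y) α)) volume 0 (2 * π) :=
    (Real.continuous_cos.comp (hc _)).intervalIntegrable _ _
  have h2 : IntervalIntegrable (fun α => Real.sin (pp (x + y) α)) volume 0 (2 * π) :=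
    (Real.continuous_sin.comp (hc _)).intervalIntegrable _ _
  rw [intervalIntegral.integral_add h1 h2]
  rw [int_cos, int_sin]
  field_simp
  ring

theorem int_comb {k : ℕ} (w : Fin k → ℂ) (t : Fin k → ℝ) :
    1 / (2 * π) * (∫ α in (0:ℝ)..(2 * π), (∑ j, t j * FF (w j) α) ^ 2) =
      ∑ i, ∑ j, t i * t j * J0 ‖w i - w j‖ := by
  have h1 : ∀ α, (∑ j, t j * FF (w j) α) ^ 2 =
      ∑ i, ∑ j, t i * t j * (FF (w i) α * FF (w j) α) := fun α => by
    rw [sq, Finset.sum_mul_sum]
    refine Finset.sum_congr rfl fun i _ => Finset.sum_congr rfl fun j _ => by ring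
  have hi : ∀ i j : Fin k, IntervalIntegrable (fun α => t i * t j * (FF (w i) α * FF (w j) α))
      volume 0 (2 * π) := fun i j =>
    (continuous_const.mul ((cont_F _).mul (cont_F _))).intervalIntegrable _ _
  simp only [h1]
  rw [intervalIntegral.integral_finsetSum, Finset.mul_sum]
  · refine Finset.sum_congr rfl fun i _ => ?_
    rw [intervalIntegral.integral_finsetSum, Finset.mul_sum]
    · refine Finset.sum_congr rfl fun j _ => ?_
      rw [intervalIntegral.integral_const_mul, ← int_FF]
      ring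
    · exact fun j _ => hi i j
  · intro i _
    have hs := IntervalIntegrable.sum Finset.univ fun j _ => hi i j
    refine hs.congr ?_
    exact fun α _ => by simp

end Pool.Agent.L0h6.WK
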