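import Pool.Agent.L0h6.WK.Ser
import Pool.Agent.L0h6.WK.Cov
import Pool.Agent.L0h77.WK.Stm3

/-! The isotropic random wave exists. -/

set_option autoImplicit false
open MeasureTheory Filter Topology Set ProbabilityTheory
open scoped Real

noncomputable section

namespace Pool.Agent.L0h6.WK

open Pool.Agent.N661.BR (MW lin J0 IsRandomWave)
open Pool.Agent.W745.RW (lap dx dy)

/-- the good samples -/
def Good (o : ℤ ⊕ ℤ → ℝ) : Prop := ∑' i, ENNReal.ofReal (ww i * |o i|) ≠ ⊤

open Classical in
/-- the random function -/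
def Phi (o : ℤ ⊕ ℤ → ℝ) : MW :=
  if h : Good o then ⟨psi (rho o), psi_mem (cont_rho (summable_good (fun i => (ww_pos i).le) h))⟩
  else ⟨psi (fun _ => 0), psi_mem continuous_const⟩

theorem Phi_good {o : ℤ ⊕ ℤ → ℝ} (h : Good o) (x : ℂ) : (Phi o) x = psi (rho o) x := by
  unfold Phi
  rw [dif_pos h]

theorem Phi_sum {o : ℤ ⊕ ℤ → ℝ} (h : Good o) (x : ℂ) :
    HasSum (fun i => o i * uu i x) ((Phi o) x) := by
  rw [Phi_good h]
  exact hasSum_psi (summable_good (fun i => (ww_pos i).le) h) x

theorem meas_Phi : Measurable Phi := by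
  classical
  have h1 : Measurable fun o => (Phi o).1 := by
    refine measurable_pi_iff.2 fun x => ?_
    have h2 : (fun o => (Phi o).1 x) = fun o => if Good o then ∑' i, o i * uu i x
        else psi (fun _ => 0) x := by
      funext o
      by_cases h : Good o
      · rw [if_pos h]
        exact ((Phi_sum h x).tsum_eq).symm
      · rw [if_neg h]
        unfold Phi
        rw [dif_neg h]
    rw [h2]
    refine Measurable.ite (meas_good ww) ?_ measurable_const
    exact Measurable.tsum fun i => by fun_prop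
  exact Measurable.subtype_mk (h := fun o => (Phi o).2) h1

theorem hasSum_sq {k : ℕ} (w : Fin k → ℂ) (t : Fin k → ℝ) :
    HasSum (fun i => (∑ j, t j * uu i (w j)) ^ 2) (∑ i, ∑ j, t i * t j * J0 ‖w i - w j‖) := by
  set f : ℝ → ℝ := fun α => ∑ j, t j * FF (w j) α with hf
  have hfc : Continuous f := continuous_finsetSum _ fun j _ => continuous_const.mul (cont_F _)
  have hU : ∀ i, ∑ j, t j * uu i (w j) = 1 / (2 * π) * ∫ α in (0:ℝ)..(2 * π), ee i α * f α := by
    intro i
    have h1 : ∀ α, ee i α * f α = ∑ j, t j * (ee i α * FF (w j) α) := fun α => by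
      rw [hf, Finset.mul_sum]
      exact Finset.sum_congr rfl fun j _ => by ring
    simp only [h1]
    rw [intervalIntegral.integral_finsetSum, Finset.mul_sum]
    · refine Finset.sum_congr rfl fun j _ => ?_
      rw [intervalIntegral.integral_const_mul, uu]
      ring
    · exact fun j _ => (continuous_const.mul ((cont_ee i).mul (cont_F _))).intervalIntegrable _ _
  have h := parseval f hfc
  rw [int_comb w t] at h
  set A : ℤ → ℝ := fun n => (1 / (2 * π) * ∫ α in (0:ℝ)..(2 * π), Real.cos (n * α) * f α) ^ 2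
  set B : ℤ → ℝ := fun n => (1 / (2 * π) * ∫ α in (0:ℝ)..(2 * π), Real.sin (n * α) * f α) ^ 2
  have hA : Summable A := Summable.of_nonneg_of_le (fun n => sq_nonneg _)
    (fun n => le_add_of_nonneg_right (sq_nonneg _)) h.summable
  have hB : Summable B := Summable.of_nonneg_of_le (fun n => sq_nonneg _)
    (fun n => le_add_of_nonneg_left (sq_nonneg _)) h.summable
  have hAB := (hA.hasSum.add hB.hasSum).unique h
  rw [← hAB]
  have hcos : ∀ n : ℤ, A n = (∑ j, t j * uu (Sum.inl n) (w j)) ^ 2 := fun n => by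
    rw [hU]
    simp only [A, ee, nn, ph, Sum.elim_inl, id, add_zero]
  have hsin : ∀ n : ℤ, B n = (∑ j, t j * uu (Sum.inr n) (w j)) ^ 2 := fun n => by
    rw [hU]
    simp only [B, ee, nn, ph, Sum.elim_inr, id, ← sub_eq_add_neg, Real.cos_sub_pi_div_two]
  refine HasSum.sum (f := fun i => (∑ j, t j * uu i (w j)) ^ 2) ?_ ?_
  · exact hA.hasSum.congr_fun fun n => (hcos n).symm
  · exact hB.hasSum.congr_fun fun n => (hsin n).symm

theorem meas_lin {k : ℕ} (w : Fin k → ℂ) (t : Fin k → ℝ) : Measurable (lin w t) := by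
  unfold lin
  refine Finset.measurable_sum _ fun j _ => Measurable.const_mul ?_ _
  exact (measurable_pi_apply (w j)).comp measurable_subtype_coe

open Pool.Agent.L0h77.WK in
theorem t_EXR : S_EXR := by
  refine ⟨(PG (ℤ ⊕ ℤ)).map Phi, Measure.isProbabilityMeasure_map meas_Phi.aemeasurable, ?_⟩
  intro k w t
  rw [Measure.map_map (meas_lin w t) meas_Phi]
  refine gau_law (fun i => ∑ j, t j * uu i (w j)) _ (hasSum_sq w t) _
    ((meas_lin w t).comp meas_Phi) ?_
  filter_upwards [ae_good ww (fun i => (ww_pos i).le) summable_ww] with o ho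
  have h1 : HasSum (fun i => ∑ j, t j * (o i * uu i (w j))) (∑ j, t j * (Phi o) (w j)) :=
    hasSum_sum fun j _ => (Phi_sum ho (w j)).mul_left (t j)
  refine h1.congr_fun fun i => ?_
  rw [Finset.mul_sum]
  exact Finset.sum_congr rfl fun j _ => by ring

end Pool.Agent.L0h6.WK
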