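import Mathlib

/-! Series of independent standard normal variables. -/

set_option autoImplicit false
open MeasureTheory Filter Topology ProbabilityTheory Complex
open scoped ENNReal

namespace Pool.Agent.L0h6.WK

variable {ι : Type}

/-- the law of a family of independent standard normal variables -/
noncomputable def PG (ι : Type) : Measure (ι → ℝ) := Measure.infinitePi fun _ : ι => gaussianReal 0 1

instance : IsProbabilityMeasure (PG ι) := by unfold PG; infer_instance

theorem PG_eval (i : ι) : (PG ι).map (fun ω => ω i) = gaussianReal 0 1 :=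
  (measurePreserving_eval_infinitePi (fun _ : ι => gaussianReal 0 1) i).map_eq

theorem charFun_fin (U : ι → ℝ) (S : Finset ι) (τ : ℝ) :
    ∫ ω, cexp ((τ : ℂ) * ((∑ i ∈ S, ω i * U i : ℝ) : ℂ) * I) ∂(PG ι) =
      cexp (((-(τ ^ 2 * (∑ i ∈ S, U i ^ 2) / 2) : ℝ)) : ℂ) := by
  have h0 : iIndepFun (fun i (ω : ι → ℝ) => ω i * U i) (PG ι) :=
    iIndepFun_infinitePi (X := fun i (x : ℝ) => x * U i) (fun i => by fun_prop)
  have h1 := congrFun (iIndepFun.charFun_map_fun_finsetSum_eq_prod (s := S)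
    (fun i _ => (by fun_prop : Measurable fun ω : ι → ℝ => ω i * U i).aemeasurable)
    (h0.restrict S)) τ
  have hm : Measurable fun ω : ι → ℝ => ∑ i ∈ S, ω i * U i :=
    Finset.measurable_sum _ fun i _ => by fun_prop
  rw [charFun_apply_real, integral_map hm.aemeasurable (by fun_prop)] at h1
  rw [h1, Finset.prod_apply]
  have h2 : ∀ i ∈ S, charFun ((PG ι).map fun ω => ω i * U i) τ =
      cexp (((-(τ ^ 2 * U i ^ 2 / 2) : ℝ)) : ℂ) := by
    intro i _
    have h3 : (PG ι).map (fun ω => ω i * U i) = (gaussianReal 0 1).map fun x => x * U i := by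
      rw [← PG_eval i, Measure.map_map (by fun_prop) (by fun_prop)]
      rfl
    rw [h3, gaussianReal_map_mul_const, charFun_gaussianReal]
    congr 1
    push_cast
    simp
    ring
  rw [Finset.prod_congr rfl h2, ← Complex.exp_sum]
  congr 1
  rw [← Complex.ofReal_sum]
  congr 1
  rw [Finset.sum_neg_distrib, Finset.mul_sum, Finset.sum_div]

variable [Countable ι]

theorem gau_law (U : ι → ℝ) (s : ℝ) (hU : HasSum (fun i => U i ^ 2) s) (Y : (ι → ℝ) → ℝ)
    (hY : Measurable Y) (h : ∀ᵐ ω ∂(PG ι), HasSum (fun i => ω i * U i) (Y ω)) :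
    (PG ι).map Y = gaussianReal 0 s.toNNReal := by
  have hs : 0 ≤ s := hU.nonneg fun i => sq_nonneg _
  refine Measure.ext_of_charFun ?_
  ext τ
  rw [charFun_apply_real, integral_map hY.aemeasurable (by fun_prop), charFun_gaussianReal]
  have h1 : Tendsto (fun S : Finset ι => ∫ ω, cexp ((τ : ℂ) * ((∑ i ∈ S, ω i * U i : ℝ) : ℂ) * I)
      ∂(PG ι)) atTop (𝓝 (∫ ω, cexp ((τ : ℂ) * (Y ω : ℂ) * I) ∂(PG ι))) := by
    refine tendsto_integral_filter_of_dominated_convergence (fun _ => (1 : ℝ)) ?_ ?_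
      (integrable_const _) ?_
    · refine Eventually.of_forall fun S => Measurable.aestronglyMeasurable ?_
      have hm : Measurable fun ω : ι → ℝ => ∑ i ∈ S, ω i * U i :=
        Finset.measurable_sum _ fun i _ => by fun_prop
      exact (Complex.continuous_exp.comp ((continuous_const.mul
        Complex.continuous_ofReal).mul continuous_const)).measurable.comp hm
    · refine Eventually.of_forall fun S => Eventually.of_forall fun ω => ?_
      rw [← Complex.ofReal_mul, Complex.norm_exp_ofReal_mul_I]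
    · filter_upwards [h] with ω hω
      exact ((Complex.continuous_exp.comp ((continuous_const.mul
        Complex.continuous_ofReal).mul continuous_const)).tendsto (Y ω)).comp hω
  have h2 : Tendsto (fun S : Finset ι => ∫ ω, cexp ((τ : ℂ) * ((∑ i ∈ S, ω i * U i : ℝ) : ℂ) * I)
      ∂(PG ι)) atTop (𝓝 (cexp (((-(τ ^ 2 * s / 2) : ℝ)) : ℂ))) := by
    simp only [charFun_fin]
    have hc : Continuous fun x : ℝ => cexp (((-(τ ^ 2 * x / 2) : ℝ)) : ℂ) := by fun_prop
    exact (hc.tendsto s).comp hU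
  rw [tendsto_nhds_unique h1 h2]
  congr 1
  have : ((s.toNNReal : ℝ) : ℂ) = (s : ℂ) := by rw [Real.coe_toNNReal _ hs]
  push_cast
  rw [this]
  simp
  ring

theorem ae_good (q : ι → ℝ) (hq : ∀ i, 0 ≤ q i) (hs : Summable q) :
    ∀ᵐ ω ∂(PG ι), ∑' i, ENNReal.ofReal (q i * |ω i|) ≠ ⊤ := by
  have hm : ∀ i : ι, Measurable fun ω : ι → ℝ => ENNReal.ofReal (q i * |ω i|) := fun i => by
    fun_prop
  set c : ℝ≥0∞ := ∫⁻ x, ENNReal.ofReal |x| ∂(gaussianReal 0 1) with hc
  have hc1 : c ≠ ⊤ := by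
    have h1 : Integrable (fun x : ℝ => x) (gaussianReal 0 1) :=
      (memLp_id_gaussianReal (μ := 0) (v := 1) 1).integrable (by simp)
    have h2 := h1.abs.lintegral_lt_top
    exact h2.ne
  have h1 : ∫⁻ ω, ∑' i, ENNReal.ofReal (q i * |ω i|) ∂(PG ι) = ∑' i, ENNReal.ofReal (q i) * c := by
    rw [lintegral_tsum fun i => (hm i).aemeasurable]
    congr 1
    funext i
    have h2 : ∀ ω : ι → ℝ, ENNReal.ofReal (q i * |ω i|) =
        ENNReal.ofReal (q i) * ENNReal.ofReal |ω i| := fun ω => ENNReal.ofReal_mul (hq i)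
    simp only [h2]
    rw [lintegral_const_mul _ (by fun_prop), hc, ← PG_eval i, lintegral_map (by fun_prop)
      (by fun_prop)]
  have h2 : ∫⁻ ω, ∑' i, ENNReal.ofReal (q i * |ω i|) ∂(PG ι) ≠ ⊤ := by
    rw [h1, ENNReal.tsum_mul_right, ← ENNReal.ofReal_tsum_of_nonneg hq hs]
    exact ENNReal.mul_ne_top ENNReal.ofReal_ne_top hc1
  filter_upwards [ae_lt_top (Measurable.tsum hm) h2] with ω hω
  exact hω.ne

omit [Countable ι] in
theorem summable_good {q : ι → ℝ} (hq : ∀ i, 0 ≤ q i) {ω : ι → ℝ}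
    (h : ∑' i, ENNReal.ofReal (q i * |ω i|) ≠ ⊤) : Summable fun i => q i * |ω i| := by
  refine (ENNReal.summable_toReal h).congr fun i => ?_
  rw [ENNReal.toReal_ofReal (mul_nonneg (hq i) (abs_nonneg _))]

theorem meas_good (q : ι → ℝ) :
    MeasurableSet {ω : ι → ℝ | ∑' i, ENNReal.ofReal (q i * |ω i|) ≠ ⊤} := by
  have hm : ∀ i : ι, Measurable fun ω : ι → ℝ => ENNReal.ofReal (q i * |ω i|) := fun i => by
    fun_prop
  exact (Measurable.tsum hm) (measurableSet_singleton ⊤).compl

end Pool.Agent.L0h6.WK
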