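import Pool.Agent.L0h77.WK.Stm

/-!
# Project WK (helper77), module MSR
-/

set_option autoImplicit false

open Topology

namespace Pool.Agent.L0h6.WK

open Pool.Agent.L0h77.WK

/-- MSR -/
theorem t_MSR : S_MSR := by
  intro Z _ F hF
  rw [borel_eq_generateFrom_of_subbasis (ContinuousMap.compactOpen_eq (X := ℂ) (Y := ℝ))]
  apply measurable_generateFrom
  rintro _ ⟨K, hK, U, hU, rfl⟩
  have hK' : IsCompact K := hK
  have hU' : IsOpen U := hU
  by_cases hUe : Uᶜ.Nonempty
  swap
  · have hUu : U = Set.univ := by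
      rw [Set.not_nonempty_iff_eq_empty, Set.compl_empty_iff] at hUe
      exact hUe
    have e : F ⁻¹' {f : C(ℂ, ℝ) | Set.MapsTo f K U} = Set.univ := by
      ext z
      simp only [Set.mem_preimage, Set.mem_univ, iff_true]
      show Set.MapsTo (F z) K U
      rw [hUu]
      exact Set.mapsTo_univ _ _
    rw [e]
    exact MeasurableSet.univ
  have hcl : IsClosed Uᶜ := hU'.isClosed_compl
  obtain ⟨D, hDK, hDc, hKD⟩ := (TopologicalSpace.IsSeparable.of_separableSpace K).exists_countable_dense_subset
  have e : F ⁻¹' {f : C(ℂ, ℝ) | Set.MapsTo f K U} =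
      ⋃ m : ℕ, ⋂ q ∈ D, {z | (1 : ℝ) / (m + 1) ≤ Metric.infDist (F z q) Uᶜ} := by
    ext z
    simp only [Set.mem_preimage, Set.mem_iUnion, Set.mem_iInter]
    have hcont : Continuous fun x : ℂ => Metric.infDist (F z x) Uᶜ :=
      (Metric.continuous_infDist_pt _).comp (F z).continuous
    constructor
    · intro h
      have h' : Set.MapsTo (F z) K U := h
      rcases K.eq_empty_or_nonempty with hKe | hKe
      · refine ⟨0, fun q hq => ?_⟩
        have := hDK hq
        rw [hKe] at this
        exact absurd this (Set.notMem_empty q)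
      · obtain ⟨x, hx, hmin⟩ := hK'.exists_isMinOn hKe hcont.continuousOn
        have hpos : 0 < Metric.infDist (F z x) Uᶜ :=
          (hcl.notMem_iff_infDist_pos hUe).1 (fun hn => hn (h' hx))
        obtain ⟨m, hm⟩ := exists_nat_one_div_lt hpos
        refine ⟨m, fun q hq => ?_⟩
        have h1 : Metric.infDist (F z x) Uᶜ ≤ Metric.infDist (F z q) Uᶜ := hmin (hDK hq)
        exact hm.le.trans h1
    · rintro ⟨m, hm⟩
      show Set.MapsTo (F z) K U
      intro x hx
      have h1 : x ∈ closure D := hKD hx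
      have h2 : IsClosed {x : ℂ | (1 : ℝ) / (m + 1) ≤ Metric.infDist (F z x) Uᶜ} :=
        isClosed_le continuous_const hcont
      have h3 : closure D ⊆ {x : ℂ | (1 : ℝ) / (m + 1) ≤ Metric.infDist (F z x) Uᶜ} :=
        closure_minimal (fun q hq => hm q hq) h2
      have h4 : (1 : ℝ) / (m + 1) ≤ Metric.infDist (F z x) Uᶜ := h3 h1
      by_contra hn
      have h5 : Metric.infDist (F z x) Uᶜ = 0 := Metric.infDist_zero_of_mem hn
      rw [h5] at h4
      have : (0 : ℝ) < 1 / ((m : ℝ) + 1) := by positivity
      linarith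
  rw [e]
  refine MeasurableSet.iUnion fun m => MeasurableSet.biInter hDc fun q _ => ?_
  exact measurableSet_le measurable_const ((Metric.continuous_infDist_pt _).measurable.comp (hF q))

end Pool.Agent.L0h6.WK
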