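import Pool.Agent.L0h6.WK.Smo
import Pool.Agent.L0h6.WK.Gau

/-! The random series. -/

set_option autoImplicit false
open MeasureTheory Filter Topology Set
open scoped ContDiff Real

noncomputable section

namespace Pool.Agent.L0h6.WK

open Pool.Agent.W745.RW (lap dx dy)

/-- the solution of the Helmholtz equation with density `ρ` -/
def psi (ρ : ℝ → ℝ) (x : ℂ) : ℝ := ∫ y in Icc 0 (2 * π), ρ y • KF (x, y)

theorem psi_mem {ρ : ℝ → ℝ} (hρ : Continuous ρ) :
    ContDiff ℝ ∞ (psi ρ) ∧ ∀ z, lap (psi ρ) z + psi ρ z = 0 := by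
  have hK : IsCompact (Icc 0 (2 * π)) := isCompact_Icc
  refine ⟨contDiff_setInt hρ hK smooth_KF, fun z => ?_⟩
  have h1 : ∀ v : ℂ, (fun x => fderiv ℝ (psi ρ) x v) = fun x => ∫ y in Icc 0 (2 * π),
      ρ y • K1 v (x, y) := fun v => funext fun x =>
    fderiv_setInt_apply hρ hK smooth_KF v (fun x y => der_KF v x y) x
  have h2 : ∀ v : ℂ, fderiv ℝ (fun x => fderiv ℝ (psi ρ) x v) z v =
      ∫ y in Icc 0 (2 * π), ρ y • K2 v (z, y) := fun v => by
    rw [h1 v]
    exact fderiv_setInt_apply hρ hK (smooth_K1 v) v (fun x y => der_K1 v x y) z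
  have h3 : ∀ {R : ℂ × ℝ → ℝ}, ContDiff ℝ ∞ R →
      Integrable (fun y => ρ y • R (z, y)) (volume.restrict (Icc 0 (2 * π))) := fun {R} hR =>
    (hρ.smul (hR.continuous.comp (Continuous.prodMk_right z))).continuousOn.integrableOn_compact hK
  have h4 : lap (psi ρ) z = (∫ y in Icc 0 (2 * π), ρ y • K2 1 (z, y)) +
      ∫ y in Icc 0 (2 * π), ρ y • K2 Complex.I (z, y) := by
    rw [← h2, ← h2]
    rfl
  have h6 := integral_add ((h3 (smooth_K2 1)).add (h3 (smooth_K2 Complex.I))) (h3 smooth_KF)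
  simp only [Pi.add_apply] at h6
  rw [h4, ← integral_add (h3 (smooth_K2 _)) (h3 (smooth_K2 _)), psi, ← h6]
  have h5 : ∀ y, ρ y • K2 1 (z, y) + ρ y • K2 Complex.I (z, y) + ρ y • KF (z, y) = 0 := by
    intro y
    have := K2_sum z y
    simp only [smul_eq_mul]
    linear_combination ρ y * this
  simp only [h5, integral_zero]

/-! ### The trigonometric system -/

/-- the frequencies -/
def nn : ℤ ⊕ ℤ → ℤ := Sum.elim id id
/-- the phases -/
def ph : ℤ ⊕ ℤ → ℝ := Sum.elim (fun _ => 0) (fun _ => -(π / 2))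
/-- `cos n α` and `sin n α` -/
def ee (i : ℤ ⊕ ℤ) (α : ℝ) : ℝ := Real.cos (nn i * α + ph i)
/-- the weights -/
def ww (i : ℤ ⊕ ℤ) : ℝ := 1 / (1 + (nn i : ℝ) ^ 2)

theorem ww_pos (i : ℤ ⊕ ℤ) : 0 < ww i := by unfold ww; positivity

theorem summable_ww : Summable ww := by
  have h : Summable fun n : ℤ => 1 / (1 + (n : ℝ) ^ 2) := by
    refine Summable.of_norm_bounded_eventually (g := fun n : ℤ => 1 / (n : ℝ) ^ 2)
      (Real.summable_one_div_int_pow.2 (by norm_num)) ?_
    rw [eventually_cofinite]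
    refine (Set.finite_singleton (0 : ℤ)).subset fun n hn => ?_
    by_contra h0
    refine hn ?_
    have h1 : (n : ℝ) ≠ 0 := by exact_mod_cast h0
    have h2 : 0 < (n : ℝ) ^ 2 := by positivity
    rw [Real.norm_of_nonneg (by positivity)]
    exact one_div_le_one_div_of_le h2 (by linarith)
  exact (h.hasSum.sum (f := ww) h.hasSum).summable

theorem cont_ee (i : ℤ ⊕ ℤ) : Continuous (ee i) := by unfold ee; fun_prop

theorem abs_ee (i : ℤ ⊕ ℤ) (α : ℝ) : |ee i α| ≤ 1 := Real.abs_cos_le_one _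

theorem cont_KF (x : ℂ) : Continuous fun y => KF (x, y) :=
  smooth_KF.continuous.comp (Continuous.prodMk_right x)

theorem cont_FF (x : ℂ) : Continuous fun y => FF x y :=
  smooth_FF.continuous.comp (Continuous.prodMk_right x)

theorem dpp (x : ℂ) (α : ℝ) : HasDerivAt (fun α => pp x α) (qq x α) α := by
  have h := ((Real.hasDerivAt_cos α).const_mul x.re).add ((Real.hasDerivAt_sin α).const_mul x.im)
  refine h.congr_deriv ?_
  simp only [qq]
  ring

theorem dqq (x : ℂ) (α : ℝ) : HasDerivAt (fun α => qq x α) (-pp x α) α := by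
  have h := ((Real.hasDerivAt_cos α).const_mul x.im).sub ((Real.hasDerivAt_sin α).const_mul x.re)
  refine h.congr_deriv ?_
  simp only [pp]
  ring

theorem dFF (x : ℂ) (α : ℝ) : HasDerivAt (fun α => FF x α) (qq x α * GG x α) α := by
  have h := (dpp x α).cos.add (dpp x α).sin
  refine h.congr_deriv ?_
  simp only [GG]
  ring

theorem dGG (x : ℂ) (α : ℝ) : HasDerivAt (fun α => GG x α) (-(qq x α * FF x α)) α := by
  have h := (dpp x α).cos.sub (dpp x α).sin
  refine h.congr_deriv ?_
  simp only [FF]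
  ring

/-- integration by parts -/
theorem ibp (i : ℤ ⊕ ℤ) (x : ℂ) : (∫ α in (0:ℝ)..(2 * π), ee i α * KF (x, α)) =
    (1 + (nn i : ℝ) ^ 2) * ∫ α in (0:ℝ)..(2 * π), ee i α * FF x α := by
  set n : ℝ := (nn i : ℝ) with hn
  have hl : ∀ α : ℝ, HasDerivAt (fun α => n * α + ph i) n α := fun α => by
    simpa using ((hasDerivAt_id α).const_mul n).add_const (ph i)
  have hW : ∀ α : ℝ, HasDerivAt (fun α => qq x α * GG x α * Real.cos (n * α + ph i) +
      FF x α * (n * Real.sin (n * α + ph i)))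
      ((1 + n ^ 2) * (ee i α * FF x α) - ee i α * KF (x, α)) α := by
    intro α
    have h := (((dqq x α).mul (dGG x α)).mul (hl α).cos).add
      ((dFF x α).mul ((hl α).sin.const_mul n))
    refine h.congr_deriv ?_
    simp only [ee, KF, ← hn, Pi.mul_apply]
    ring
  have hc : Continuous fun α => (1 + n ^ 2) * (ee i α * FF x α) - ee i α * KF (x, α) :=
    (continuous_const.mul ((cont_ee i).mul (cont_FF x))).sub ((cont_ee i).mul (cont_KF x))
  have h1 := intervalIntegral.integral_eq_sub_of_hasDerivAt (a := 0) (b := 2 * π)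
    (fun α _ => hW α) (hc.intervalIntegrable _ _)
  have h2 : Real.cos (n * (2 * π) + ph i) = Real.cos (ph i) := by
    rw [add_comm, hn]; exact Real.cos_add_int_mul_two_pi _ _
  have h3 : Real.sin (n * (2 * π) + ph i) = Real.sin (ph i) := by
    rw [add_comm, hn]; exact Real.sin_add_int_mul_two_pi _ _
  have h4 : qq x (2 * π) = qq x 0 := by simp [qq]
  have h5 : pp x (2 * π) = pp x 0 := by simp [pp]
  rw [h2, h3, h4, GG, FF, h5, intervalIntegral.integral_sub, intervalIntegral.integral_const_mul]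
    at h1
  · simp only [GG, FF, mul_zero, zero_add] at h1
    simp only [FF] at *
    linarith
  · exact (continuous_const.mul ((cont_ee i).mul (cont_FF x))).intervalIntegrable _ _
  · exact ((cont_ee i).mul (cont_KF x)).intervalIntegrable _ _

/-- the coefficients -/
def uu (i : ℤ ⊕ ℤ) (x : ℂ) : ℝ := 1 / (2 * π) * ∫ α in (0:ℝ)..(2 * π), ee i α * FF x α

/-- the random density -/
def rho (o : ℤ ⊕ ℤ → ℝ) (α : ℝ) : ℝ := ∑' i, 1 / (2 * π) * (ww i * o i) * ee i α

theorem rho_bd (o : ℤ ⊕ ℤ → ℝ) (i : ℤ ⊕ ℤ) (α : ℝ) :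
    |1 / (2 * π) * (ww i * o i) * ee i α| ≤ 1 / (2 * π) * (ww i * |o i|) := by
  rw [abs_mul, abs_mul, abs_mul, abs_of_pos (ww_pos i), abs_of_pos (by positivity : 0 < 1 / (2 * π))]
  have := abs_ee i α
  have h2 : 0 ≤ 1 / (2 * π) * (ww i * |o i|) := by
    have := ww_pos i
    positivity
  nlinarith

theorem cont_rho {o : ℤ ⊕ ℤ → ℝ} (h : Summable fun i => ww i * |o i|) : Continuous (rho o) :=
  continuous_tsum (fun i => continuous_const.mul (cont_ee i)) (h.mul_left (1 / (2 * π)))
    fun i α => rho_bd o i α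

theorem hasSum_psi {o : ℤ ⊕ ℤ → ℝ} (h : Summable fun i => ww i * |o i|) (x : ℂ) :
    HasSum (fun i => o i * uu i x) (psi (rho o) x) := by
  have hK : IsCompact (Icc 0 (2 * π)) := isCompact_Icc
  obtain ⟨C, hC⟩ := hK.exists_bound_of_continuousOn (cont_KF x).continuousOn
  have hc : ∀ i, Continuous fun α => 1 / (2 * π) * (ww i * o i) * ee i α * KF (x, α) := fun i =>
    (continuous_const.mul (cont_ee i)).mul (cont_KF x)
  have hi : ∀ i, Integrable (fun α => 1 / (2 * π) * (ww i * o i) * ee i α * KF (x, α))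
      (volume.restrict (Icc 0 (2 * π))) := fun i => (hc i).continuousOn.integrableOn_compact hK
  have h1 := hasSum_integral_of_summable_integral_norm hi ?_
  · have e1 : ∀ i, (∫ α in Icc 0 (2 * π), 1 / (2 * π) * (ww i * o i) * ee i α * KF (x, α)) =
        o i * uu i x := by
      intro i
      have h0 : (1 + (nn i : ℝ) ^ 2) ≠ 0 := by positivity
      rw [integral_Icc_eq_integral_Ioc, ← intervalIntegral.integral_of_le (by positivity)]
      have h2 : ∀ α, 1 / (2 * π) * (ww i * o i) * ee i α * KF (x, α) =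
          1 / (2 * π) * (ww i * o i) * (ee i α * KF (x, α)) := fun α => by ring
      simp only [h2]
      rw [intervalIntegral.integral_const_mul, ibp, uu, ww]
      field_simp
    have e2 : (∫ α in Icc 0 (2 * π), ∑' i, 1 / (2 * π) * (ww i * o i) * ee i α * KF (x, α)) =
        psi (rho o) x := by
      unfold psi rho
      congr 1
      funext α
      rw [tsum_mul_right, smul_eq_mul]
    rw [e2] at h1
    exact h1.congr_fun (fun i => (e1 i).symm)
  · have h3 : ∀ i, (∫ α in Icc 0 (2 * π), ‖1 / (2 * π) * (ww i * o i) * ee i α * KF (x, α)‖) ≤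
        (ww i * |o i|) * C := by
      intro i
      have h4 : (∫ α in Icc 0 (2 * π), ‖1 / (2 * π) * (ww i * o i) * ee i α * KF (x, α)‖) ≤
          ∫ α in Icc 0 (2 * π), 1 / (2 * π) * (ww i * |o i|) * C := by
        refine setIntegral_mono_on (hi i).norm (integrableOn_const hK.measure_lt_top.ne)
          measurableSet_Icc fun α hα => ?_
        rw [norm_mul]
        exact mul_le_mul (rho_bd o i α) (hC α hα) (norm_nonneg _)
          (by have := ww_pos i; positivity)
      refine h4.trans (le_of_eq ?_)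
      rw [setIntegral_const]
      simp only [Real.volume_real_Icc, sub_zero, smul_eq_mul]
      rw [max_eq_left (by positivity)]
      field_simp
    exact Summable.of_nonneg_of_le (fun i => integral_nonneg fun α => norm_nonneg _) h3
      (h.mul_right C)

end Pool.Agent.L0h6.WK
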