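import Pool.Agent.N661.BR.Defs

/-! Smooth solutions of the Helmholtz equation given by integrals over the circle
(differentiation under the integral after `Pool.Agent.Y394.SY.Sm`). -/

set_option autoImplicit false
open MeasureTheory Filter Topology Set
open scoped ContDiff

noncomputable section

namespace Pool.Agent.L0h6.WK

section gen

variable {K : Set ℝ} {ρ : ℝ → ℝ}

theorem fderiv_slice {X F : Type} [NormedAddCommGroup X] [NormedSpace ℝ X]
    [NormedAddCommGroup F] [NormedSpace ℝ F] {R : X × ℝ → F} (hR : ContDiff ℝ ∞ R) (x : X) (y : ℝ) :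
    HasFDerivAt (fun x' => R (x', y))
      ((fderiv ℝ R (x, y)).comp (ContinuousLinearMap.inl ℝ X ℝ)) x := by
  have h1 : HasFDerivAt R (fderiv ℝ R (x, y)) (x, y) :=
    ((hR.differentiable (by simp)) (x, y)).hasFDerivAt
  exact h1.comp x (hasFDerivAt_prodMk_left x y)

theorem slice_contDiff {X F : Type} [NormedAddCommGroup X] [NormedSpace ℝ X]
    [NormedAddCommGroup F] [NormedSpace ℝ F] {R : X × ℝ → F} (hR : ContDiff ℝ ∞ R) :
    ContDiff ℝ ∞ (fun p : X × ℝ => (fderiv ℝ R (p.1, p.2)).comp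
      (ContinuousLinearMap.inl ℝ X ℝ)) := by
  have h1 : ContDiff ℝ ∞ (fderiv ℝ R) := hR.fderiv_right (m := ∞) (by simp)
  exact h1.clm_comp contDiff_const

theorem setInt_hasFDerivAt (hρ : Continuous ρ) (hK : IsCompact K) {X F : Type}
    [NormedAddCommGroup X] [NormedSpace ℝ X] [ProperSpace X] [NormedAddCommGroup F]
    [NormedSpace ℝ F] [CompleteSpace F] {R : X × ℝ → F} (hR : ContDiff ℝ ∞ R) (x₀ : X) :
    HasFDerivAt (fun x => ∫ y in K, ρ y • R (x, y))
      (∫ y in K, ρ y • (fderiv ℝ R (x₀, y)).comp (ContinuousLinearMap.inl ℝ X ℝ)) x₀ := by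
  have hcF : Continuous (fun p : X × ℝ => ρ p.2 • (fderiv ℝ R (p.1, p.2)).comp
      (ContinuousLinearMap.inl ℝ X ℝ)) :=
    (hρ.comp continuous_snd).smul (slice_contDiff hR).continuous
  have hcR : Continuous (fun p : X × ℝ => ρ p.2 • R p) :=
    (hρ.comp continuous_snd).smul hR.continuous
  obtain ⟨C, hC⟩ := ((isCompact_closedBall x₀ 1).prod hK).exists_bound_of_continuousOn
    hcF.continuousOn
  refine hasFDerivAt_integral_of_dominated_of_fderiv_le (μ := volume.restrict K)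
    (F := fun x y => ρ y • R (x, y))
    (F' := fun x y => ρ y • (fderiv ℝ R (x, y)).comp (ContinuousLinearMap.inl ℝ X ℝ))
    (bound := fun _ => C) (Metric.closedBall_mem_nhds x₀ one_pos) ?_ ?_ ?_ ?_ ?_ ?_
  · refine Filter.Eventually.of_forall fun x => ?_
    exact (hcR.comp (Continuous.prodMk_right x)).aestronglyMeasurable
  · exact (hcR.comp (Continuous.prodMk_right x₀)).continuousOn.integrableOn_compact hK
  · exact (hcF.comp (Continuous.prodMk_right x₀)).aestronglyMeasurable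
  · refine (ae_restrict_iff' hK.measurableSet).mpr (Filter.Eventually.of_forall ?_)
    exact fun y hy x hx => hC (x, y) ⟨hx, hy⟩
  · exact integrableOn_const hK.measure_lt_top.ne
  · refine Filter.Eventually.of_forall fun y x _ => (fderiv_slice hR x y).const_smul (ρ y)

theorem contDiff_setInt_nat (hρ : Continuous ρ) (hK : IsCompact K) (n : ℕ) : ∀ (X F : Type)
    [NormedAddCommGroup X] [NormedSpace ℝ X] [ProperSpace X] [NormedAddCommGroup F]
    [NormedSpace ℝ F] [CompleteSpace F] (R : X × ℝ → F), ContDiff ℝ ∞ R →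
    ContDiff ℝ n (fun x : X => ∫ y in K, ρ y • R (x, y)) := by
  induction n with
  | zero =>
    intro X F _ _ _ _ _ _ R hR
    have : ((0 : ℕ) : WithTop ℕ∞) = 0 := rfl
    rw [this, contDiff_zero]
    exact continuous_parametric_integral_of_continuous (f := fun x y => ρ y • R (x, y))
      ((hρ.comp continuous_snd).smul hR.continuous) hK
  | succ n ih =>
    intro X F _ _ _ _ _ _ R hR
    have : (((n + 1 : ℕ) : ℕ) : WithTop ℕ∞) = (n : WithTop ℕ∞) + 1 := by norm_num
    rw [this, contDiff_succ_iff_fderiv]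
    refine ⟨fun x => (setInt_hasFDerivAt hρ hK hR x).differentiableAt, by simp, ?_⟩
    have e : fderiv ℝ (fun x : X => ∫ y in K, ρ y • R (x, y)) = fun x =>
        ∫ y in K, ρ y • (fderiv ℝ R (x, y)).comp (ContinuousLinearMap.inl ℝ X ℝ) := by
      funext x
      exact (setInt_hasFDerivAt hρ hK hR x).fderiv
    rw [e]
    exact ih X (X →L[ℝ] F) _ (slice_contDiff hR)

theorem contDiff_setInt (hρ : Continuous ρ) (hK : IsCompact K) {X F : Type}
    [NormedAddCommGroup X] [NormedSpace ℝ X] [ProperSpace X] [NormedAddCommGroup F]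
    [NormedSpace ℝ F] [CompleteSpace F] {R : X × ℝ → F} (hR : ContDiff ℝ ∞ R) :
    ContDiff ℝ ∞ (fun x : X => ∫ y in K, ρ y • R (x, y)) := by
  rw [contDiff_infty]
  exact fun n => contDiff_setInt_nat hρ hK n X F R hR

/-- the derivative in the direction `v` -/
theorem fderiv_setInt_apply (hρ : Continuous ρ) (hK : IsCompact K) {R R' : ℂ × ℝ → ℝ}
    (hR : ContDiff ℝ ∞ R) (v : ℂ)
    (h : ∀ x y, HasDerivAt (fun s : ℝ => R (x + s • v, y)) (R' (x, y)) 0) (x : ℂ) :
    fderiv ℝ (fun x : ℂ => ∫ y in K, ρ y • R (x, y)) x v = ∫ y in K, ρ y • R' (x, y) := by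
  have hcF : Continuous (fun y : ℝ => ρ y • (fderiv ℝ R (x, y)).comp
      (ContinuousLinearMap.inl ℝ ℂ ℝ)) :=
    hρ.smul ((slice_contDiff hR).continuous.comp (Continuous.prodMk_right x))
  rw [(setInt_hasFDerivAt hρ hK hR x).fderiv, ContinuousLinearMap.integral_apply
    (hcF.continuousOn.integrableOn_compact hK)]
  refine integral_congr_ae (Eventually.of_forall fun y => ?_)
  have h1 : ((fderiv ℝ R (x, y)).comp (ContinuousLinearMap.inl ℝ ℂ ℝ)) v = R' (x, y) := by
    have h2 := (fderiv_slice hR x y).hasLineDerivAt v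
    exact h2.unique (h x y)
  change ρ y • ((fderiv ℝ R (x, y)).comp (ContinuousLinearMap.inl ℝ ℂ ℝ)) v = ρ y • R' (x, y)
  rw [h1]

end gen

/-! ### The kernels -/

/-- `x · θ(α)` -/
def pp (x : ℂ) (α : ℝ) : ℝ := x.re * Real.cos α + x.im * Real.sin α
/-- `x · θ'(α)` -/
def qq (x : ℂ) (α : ℝ) : ℝ := x.im * Real.cos α - x.re * Real.sin α
def FF (x : ℂ) (α : ℝ) : ℝ := Real.cos (pp x α) + Real.sin (pp x α)
def GG (x : ℂ) (α : ℝ) : ℝ := Real.cos (pp x α) - Real.sin (pp x α)
/-- `(1 - ∂²/∂α²) F` -/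
def KF (p : ℂ × ℝ) : ℝ := (1 + qq p.1 p.2 ^ 2) * FF p.1 p.2 + pp p.1 p.2 * GG p.1 p.2
def K1 (v : ℂ) (p : ℂ × ℝ) : ℝ := 2 * qq p.1 p.2 * qq v p.2 * FF p.1 p.2 +
  (1 + qq p.1 p.2 ^ 2) * pp v p.2 * GG p.1 p.2 + pp v p.2 * GG p.1 p.2 -
  pp v p.2 * pp p.1 p.2 * FF p.1 p.2
def K2 (v : ℂ) (p : ℂ × ℝ) : ℝ := 2 * qq v p.2 ^ 2 * FF p.1 p.2 +
  4 * qq p.1 p.2 * pp v p.2 * qq v p.2 * GG p.1 p.2 -
  (1 + qq p.1 p.2 ^ 2) * pp v p.2 ^ 2 * FF p.1 p.2 - 2 * pp v p.2 ^ 2 * FF p.1 p.2 -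
  pp v p.2 ^ 2 * pp p.1 p.2 * GG p.1 p.2

theorem smooth_pp : ContDiff ℝ ∞ fun p : ℂ × ℝ => pp p.1 p.2 := by
  have h1 : ContDiff ℝ ∞ fun p : ℂ × ℝ => p.1.re := Complex.reCLM.contDiff.comp contDiff_fst
  have h2 : ContDiff ℝ ∞ fun p : ℂ × ℝ => p.1.im := Complex.imCLM.contDiff.comp contDiff_fst
  unfold pp
  fun_prop

theorem smooth_qq : ContDiff ℝ ∞ fun p : ℂ × ℝ => qq p.1 p.2 := by
  have h1 : ContDiff ℝ ∞ fun p : ℂ × ℝ => p.1.re := Complex.reCLM.contDiff.comp contDiff_fst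
  have h2 : ContDiff ℝ ∞ fun p : ℂ × ℝ => p.1.im := Complex.imCLM.contDiff.comp contDiff_fst
  unfold qq
  fun_prop

theorem smooth_pv (v : ℂ) : ContDiff ℝ ∞ fun p : ℂ × ℝ => pp v p.2 := by
  unfold pp
  fun_prop

theorem smooth_qv (v : ℂ) : ContDiff ℝ ∞ fun p : ℂ × ℝ => qq v p.2 := by
  unfold qq
  fun_prop

theorem smooth_FF : ContDiff ℝ ∞ fun p : ℂ × ℝ => FF p.1 p.2 := by
  unfold FF
  have := smooth_pp
  fun_prop

theorem smooth_GG : ContDiff ℝ ∞ fun p : ℂ × ℝ => GG p.1 p.2 := by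
  unfold GG
  have := smooth_pp
  fun_prop

theorem smooth_KF : ContDiff ℝ ∞ KF := by
  unfold KF
  have h1 := smooth_pp
  have h2 := smooth_qq
  have h3 := smooth_FF
  have h4 := smooth_GG
  fun_prop

theorem smooth_K1 (v : ℂ) : ContDiff ℝ ∞ (K1 v) := by
  unfold K1
  have h1 := smooth_pp
  have h2 := smooth_qq
  have h3 := smooth_FF
  have h4 := smooth_GG
  have h5 := smooth_pv v
  have h6 := smooth_qv v
  fun_prop

theorem smooth_K2 (v : ℂ) : ContDiff ℝ ∞ (K2 v) := by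
  unfold K2
  have h1 := smooth_pp
  have h2 := smooth_qq
  have h3 := smooth_FF
  have h4 := smooth_GG
  have h5 := smooth_pv v
  have h6 := smooth_qv v
  fun_prop

theorem der_pp (v x : ℂ) (α : ℝ) : HasDerivAt (fun s : ℝ => pp (x + s • v) α) (pp v α) 0 := by
  have h : (fun s : ℝ => pp (x + s • v) α) = fun s : ℝ => pp x α + s * pp v α := by
    funext s
    simp only [pp, Complex.add_re, Complex.add_im, Complex.real_smul, Complex.re_ofReal_mul,
      Complex.im_ofReal_mul]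
    ring
  rw [h]
  simpa using ((hasDerivAt_id (0 : ℝ)).mul_const (pp v α)).const_add (pp x α)

theorem der_qq (v x : ℂ) (α : ℝ) : HasDerivAt (fun s : ℝ => qq (x + s • v) α) (qq v α) 0 := by
  have h : (fun s : ℝ => qq (x + s • v) α) = fun s : ℝ => qq x α + s * qq v α := by
    funext s
    simp only [qq, Complex.add_re, Complex.add_im, Complex.real_smul, Complex.re_ofReal_mul,
      Complex.im_ofReal_mul]
    ring
  rw [h]
  simpa using ((hasDerivAt_id (0 : ℝ)).mul_const (qq v α)).const_add (qq x α)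

theorem der_FF (v x : ℂ) (α : ℝ) :
    HasDerivAt (fun s : ℝ => FF (x + s • v) α) (pp v α * GG x α) 0 := by
  have h := (der_pp v x α).cos.add (der_pp v x α).sin
  refine h.congr_deriv ?_
  simp only [zero_smul, add_zero, GG]
  ring

theorem der_GG (v x : ℂ) (α : ℝ) :
    HasDerivAt (fun s : ℝ => GG (x + s • v) α) (-(pp v α * FF x α)) 0 := by
  have h := (der_pp v x α).cos.sub (der_pp v x α).sin
  refine h.congr_deriv ?_
  simp only [zero_smul, add_zero, FF]
  ring

theorem der_KF (v x : ℂ) (α : ℝ) :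
    HasDerivAt (fun s : ℝ => KF (x + s • v, α)) (K1 v (x, α)) 0 := by
  have h := ((((der_qq v x α).pow 2).const_add 1).mul (der_FF v x α)).add
    ((der_pp v x α).mul (der_GG v x α))
  refine h.congr_deriv ?_
  simp only [zero_smul, add_zero, K1]
  simp
  ring

theorem der_K1 (v x : ℂ) (α : ℝ) :
    HasDerivAt (fun s : ℝ => K1 v (x + s • v, α)) (K2 v (x, α)) 0 := by
  have h := ((((((der_qq v x α).const_mul 2).mul_const (qq v α)).mul (der_FF v x α)).add
    (((((der_qq v x α).pow 2).const_add 1).mul_const (pp v α)).mul (der_GG v x α))).add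
    ((der_GG v x α).const_mul (pp v α))).sub
    (((der_pp v x α).const_mul (pp v α)).mul (der_FF v x α))
  refine h.congr_deriv ?_
  simp only [zero_smul, add_zero, K2]
  simp
  ring

theorem K2_sum (x : ℂ) (α : ℝ) : K2 1 (x, α) + K2 Complex.I (x, α) = -KF (x, α) := by
  have h1 : pp 1 α = Real.cos α := by simp [pp]
  have h2 : qq 1 α = -Real.sin α := by simp [qq]
  have h3 : pp Complex.I α = Real.sin α := by simp [pp]
  have h4 : qq Complex.I α = Real.cos α := by simp [qq]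
  simp only [K2, KF, h1, h2, h3, h4]
  have h5 := Real.sin_sq_add_cos_sq α
  linear_combination (2 * FF x α - (1 + qq x α ^ 2) * FF x α - 2 * FF x α - pp x α * GG x α) * h5

end Pool.Agent.L0h6.WK
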